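import Pool.Agent.U280.OE.Stm
import Pool.Agent.U643.OD.B

/-!
# Project OE, package B: the Bessel inequality with the factor `1/2` in `L²`

Co-authors: helper280 (project, statement), helper643 (the case of compact support), helper122
(adaptation to `L²`).
-/

set_option autoImplicit false

open MeasureTheory Set Filter Topology

namespace Pool.Agent.U122.OE

open Pool.Agent.U280.OD Pool.Agent.U280.OE Pool.Agent.U643.OD

/-- Package B of project OE. -/
theorem t_B : T_B := by
  intro d N u hu ho hV s hs x
  set k : E d → ℝ := fun y => G s (x - y) with hk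
  have hkc : Continuous k := G_cont s x
  have hk0 : ∀ y, 0 ≤ k y := fun y => G_nonneg hs _
  have hk2 : Integrable fun y => k y ^ 2 := (G_sq_int hs).comp_sub_left x
  have hk2' : ∫ y, k y ^ 2 = (8 * Real.pi * s) ^ (-(d : ℝ) / 2) := by
    rw [← G_sq_integral hs]
    exact integral_sub_left_eq_self (fun y : E d => G s y ^ 2) volume x
  have kM : MemLp k 2 volume := (memLp_two_iff_integrable_sq hkc.aestronglyMeasurable).2 hk2
  have kCM : MemLp (fun y => ((k y : ℝ) : ℂ)) 2 volume := kM.ofReal
  set c : Fin N → ℂ := fun n => ∫ y, ((k y : ℝ) : ℂ) * u n y with hcdef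
  set w : E d → ℂ := fun y => ∑ n, star (c n) * u n y with hw
  have wM : MemLp w 2 volume :=
    memLp_finsetSum Finset.univ fun n _ => (hu n).const_mul (star (c n))
  set S : ℝ := ∑ n, ‖c n‖ ^ 2 with hS
  have hcc : ∑ n, star (c n) * c n = (S : ℂ) := by
    rw [hS]
    push_cast
    refine Finset.sum_congr rfl fun n _ => ?_
    exact Complex.conj_mul' (c n)
  -- the integral of k w
  have h1 : ∫ y, ((k y : ℝ) : ℂ) * w y = (S : ℂ) := by
    rw [← hcc, hw]
    simp_rw [Finset.mul_sum]
    rw [integral_finsetSum]
    · refine Finset.sum_congr rfl fun n _ => ?_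
      rw [hcdef, ← integral_const_mul]
      refine integral_congr_ae (Filter.Eventually.of_forall fun y => ?_)
      simp only
      ring
    · intro n _
      exact kCM.integrable_mul ((hu n).const_mul (star (c n)))
  -- the integral of |w|²
  have h2 : ∫ y, star (w y) * w y = (S : ℂ) := by
    have e : ∀ y, star (w y) * w y = ∑ n, ∑ m, (c n * star (c m)) * (star (u n y) * u m y) := by
      intro y
      rw [hw]
      simp only [star_sum, star_mul', star_star, Finset.sum_mul, Finset.mul_sum]
      rw [Finset.sum_comm]
      refine Finset.sum_congr rfl fun n _ => Finset.sum_congr rfl fun m _ => ?_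
      ring
    simp_rw [e]
    have hi : ∀ n m, Integrable fun y => (c n * star (c m)) * (star (u n y) * u m y) := by
      intro n m
      have h3 : Integrable fun y => star (u n y) * u m y := (hu n).star.integrable_mul (hu m)
      exact h3.const_mul _
    rw [integral_finsetSum _ fun n _ => integrable_finsetSum _ fun m _ => hi n m]
    rw [← hcc]
    refine Finset.sum_congr rfl fun n _ => ?_
    rw [integral_finsetSum _ fun m _ => hi n m]
    simp_rw [integral_const_mul, ho]
    simp [mul_comm]
  -- real functions
  set r : E d → ℝ := fun y => (w y).re with hr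
  set a : E d → ℝ := fun y => ‖w y‖ with ha
  have rM : MemLp r 2 volume := wM.re
  have aM : MemLp a 2 volume := wM.norm
  have ikr : Integrable fun y => k y * r y := kM.integrable_mul rM
  have ika : Integrable fun y => k y * a y := kM.integrable_mul aM
  have iar : Integrable fun y => a y * r y := aM.integrable_mul rM
  have iaa : Integrable fun y => a y * a y := aM.integrable_mul aM
  have j1 : ∫ y, k y * r y = S := by
    have hi : Integrable fun y => ((k y : ℝ) : ℂ) * w y := kCM.integrable_mul wM
    have := Complex.reCLM.integral_comp_comm hi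
    rw [h1] at this
    simpa using this
  have j2 : ∫ y, a y * a y = S := by
    have hi : Integrable fun y => star (w y) * w y := wM.star.integrable_mul wM
    have := Complex.reCLM.integral_comp_comm hi
    rw [h2] at this
    rw [show S = Complex.reCLM (S : ℂ) by simp, ← this]
    refine integral_congr_ae (Filter.Eventually.of_forall fun y => ?_)
    simp only
    have e : star (w y) * w y = ((‖w y‖ : ℂ)) ^ 2 := Complex.conj_mul' (w y)
    rw [e, ← Complex.ofReal_pow, Complex.reCLM_apply, Complex.ofReal_re]
    ring
  have j3 : ∫ y, a y * r y = 0 := by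
    have aCM : MemLp (fun y => ((a y : ℝ) : ℂ)) 2 volume := aM.ofReal
    have hi : Integrable fun y => ((a y : ℝ) : ℂ) * w y := aCM.integrable_mul wM
    have := Complex.reCLM.integral_comp_comm hi
    have h0 : ∫ y, ((a y : ℝ) : ℂ) * w y = 0 := hV fun n => star (c n)
    rw [h0] at this
    simpa using this
  have j4 : S ≤ ∫ y, k y * a y := by
    rw [← j1]
    refine integral_mono ikr ika fun y => ?_
    exact mul_le_mul_of_nonneg_left (Complex.re_le_norm _) (hk0 y)
  have j5 : 0 ≤ ∫ y, (k y ^ 2 - 2 * (k y * a y) + 2 * (a y * a y) - 2 * (k y * r y) +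
      2 * (a y * r y)) := by
    refine integral_nonneg fun y => ?_
    have h3 : r y ^ 2 ≤ a y ^ 2 := by
      rw [← sq_abs]
      exact pow_le_pow_left₀ (abs_nonneg _) (Complex.abs_re_le_norm _) 2
    show (0 : ℝ) ≤ k y ^ 2 - 2 * (k y * a y) + 2 * (a y * a y) - 2 * (k y * r y) + 2 * (a y * r y)
    nlinarith [sq_nonneg (k y - a y - r y)]
  have j6 : ∫ y, (k y ^ 2 - 2 * (k y * a y) + 2 * (a y * a y) - 2 * (k y * r y) +
      2 * (a y * r y)) = (∫ y, k y ^ 2) - 2 * (∫ y, k y * a y) + 2 * S - 2 * S + 2 * 0 := by
    rw [integral_add, integral_sub, integral_add, integral_sub, integral_const_mul,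
      integral_const_mul, integral_const_mul, integral_const_mul, j1, j2, j3]
    · exact hk2
    · exact ika.const_mul 2
    · exact hk2.sub (ika.const_mul 2)
    · exact iaa.const_mul 2
    · exact (hk2.sub (ika.const_mul 2)).add (iaa.const_mul 2)
    · exact ikr.const_mul 2
    · exact ((hk2.sub (ika.const_mul 2)).add (iaa.const_mul 2)).sub (ikr.const_mul 2)
    · exact iar.const_mul 2
  rw [j6, hk2'] at j5
  show ∑ n, ‖c n‖ ^ 2 ≤ _
  rw [← hS]
  linarith

end Pool.Agent.U122.OE
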